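import Pool.Agent.Helper411.BipMain

set_option autoImplicit false

namespace Pool.Agent.Results.MP_8d161b_co.Asymptotic

open Finset

/-- `G` has the complete graph on `t` vertices as a minor: `t` pairwise disjoint connected
vertex sets with an edge between every two of them. -/
def CliqueMinor {V : Type} (G : SimpleGraph V) (t : ℕ) : Prop :=
  ∃ B : Fin t → Set V,
    (∀ i, (G.induce (B i)).Connected) ∧
    (∀ i j, i ≠ j → Disjoint (B i) (B j)) ∧
    (∀ i j, i ≠ j → ∃ x ∈ B i, ∃ y ∈ B j, G.Adj x y)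

/-- `G` contains a `p`-scheme. -/
def HasScheme {V : Type} (G : SimpleGraph V) (p : ℕ) : Prop :=
  ∃ (v : Fin p → V) (C : Fin p → Fin p → Set V),
    Function.Injective v ∧
    (∀ i j, i ≠ j → C i j = C j i) ∧
    (∀ i j, i ≠ j → (G.induce (C i j)).Connected ∧ v i ∈ C i j ∧ v j ∈ C i j) ∧
    (∀ i j k l, i ≠ j → i ≠ k → i ≠ l → j ≠ k → j ≠ l → k ≠ l → Disjoint (C i j) (C k l))

/-- Every finite simple graph containing a `p`-scheme has `K_t` as a minor. -/
def Forces (p t : ℕ) : Prop :=
  ∀ (V : Type) [Finite V] (G : SimpleGraph V), HasScheme G p → CliqueMinor G t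

/-- `g p` is the largest `t` such that every finite graph with a `p`-scheme has a `K_t` minor. -/
noncomputable def g (p : ℕ) : ℕ := sSup {t | Forces p t}

section Levi

variable {P : Type}

/-- The graph of a family `F` of triples: points are joined to the triples containing them, and
two points are joined directly when no triple of `F` contains both. -/
def levi (F : Set (Finset P)) : SimpleGraph (P ⊕ Finset P) where
  Adj x y := match x, y with
    | .inl a, .inl b => a ≠ b ∧ ∀ T ∈ F, ¬ (a ∈ T ∧ b ∈ T)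
    | .inl a, .inr T => T ∈ F ∧ a ∈ T
    | .inr T, .inl a => T ∈ F ∧ a ∈ T
    | .inr _, .inr _ => False
  symm := ⟨by
    rintro (a | T) (b | T') h
    · exact ⟨h.1.symm, fun T hT hh => h.2 T hT ⟨hh.2, hh.1⟩⟩
    · exact h
    · exact h
    · exact h⟩
  loopless := ⟨by
    rintro (a | T) h
    · exact h.1 rfl
    · exact h⟩

@[simp] lemma levi_ll (F : Set (Finset P)) (a b : P) :
    (levi F).Adj (.inl a) (.inl b) ↔ a ≠ b ∧ ∀ T ∈ F, ¬ (a ∈ T ∧ b ∈ T) := Iff.rfl
@[simp] lemma levi_lr (F : Set (Finset P)) (a : P) (T : Finset P) :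
    (levi F).Adj (.inl a) (.inr T) ↔ T ∈ F ∧ a ∈ T := Iff.rfl
@[simp] lemma levi_rl (F : Set (Finset P)) (a : P) (T : Finset P) :
    (levi F).Adj (.inr T) (.inl a) ↔ T ∈ F ∧ a ∈ T := Iff.rfl
@[simp] lemma levi_rr (F : Set (Finset P)) (T T' : Finset P) :
    (levi F).Adj (.inr T) (.inr T') ↔ False := Iff.rfl

/-- A set with a vertex adjacent to all its other vertices is connected. -/
lemma connected_of_center {V : Type} (G : SimpleGraph V) (S : Set V) (r : V) (hr : r ∈ S)
    (h : ∀ x ∈ S, x = r ∨ G.Adj r x) : (G.induce S).Connected := by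
  rw [SimpleGraph.connected_iff_exists_forall_reachable]
  refine ⟨⟨r, hr⟩, ?_⟩
  rintro ⟨x, hx⟩
  rcases h x hx with rfl | hadj
  · exact SimpleGraph.Reachable.refl _
  · apply SimpleGraph.Adj.reachable
    exact hadj

/-- In a connected vertex set with at least two vertices, every vertex has a neighbour. -/
lemma exists_nbr_of_connected {V : Type} (G : SimpleGraph V) (S : Set V)
    (hS : (G.induce S).Connected) (x y : V) (hx : x ∈ S) (hy : y ∈ S) (hxy : x ≠ y) :
    ∃ z ∈ S, G.Adj x z := by
  have : Nontrivial S := ⟨⟨⟨x, hx⟩, ⟨y, hy⟩, fun h => hxy (congrArg Subtype.val h)⟩⟩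
  obtain ⟨z, hz⟩ := hS.preconnected.exists_adj_of_nontrivial ⟨x, hx⟩
  exact ⟨z.1, z.2, hz⟩

/-- A family of triples any two of which share at most one point. -/
def Linear (F : Set (Finset P)) : Prop :=
  (∀ T ∈ F, T.card = 3) ∧
  ∀ T ∈ F, ∀ T' ∈ F, ∀ a b : P, a ≠ b → a ∈ T → b ∈ T → a ∈ T' → b ∈ T' → T = T'

/-- The graph of a linear triple family on `p` points has a `p`-scheme. -/
lemma levi_hasScheme {p : ℕ} (F : Set (Finset (Fin p))) (hF : Linear F) :
    HasScheme (levi F) p := by
  refine ⟨fun i => .inl i,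
    fun i j => {x | x = .inl i ∨ x = .inl j ∨ ∃ T ∈ F, i ∈ T ∧ j ∈ T ∧ x = .inr T},
    Sum.inl_injective, ?_, ?_, ?_⟩
  · intro i j _
    ext x
    simp only [Set.mem_ofPred_eq]
    constructor
    · rintro (h | h | ⟨T, hT, h1, h2, h3⟩)
      · exact Or.inr (Or.inl h)
      · exact Or.inl h
      · exact Or.inr (Or.inr ⟨T, hT, h2, h1, h3⟩)
    · rintro (h | h | ⟨T, hT, h1, h2, h3⟩)
      · exact Or.inr (Or.inl h)
      · exact Or.inl h
      · exact Or.inr (Or.inr ⟨T, hT, h2, h1, h3⟩)
  · intro i j hij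
    refine ⟨?_, Or.inl rfl, Or.inr (Or.inl rfl)⟩
    by_cases h : ∃ T ∈ F, i ∈ T ∧ j ∈ T
    · obtain ⟨T, hT, hi, hj⟩ := h
      refine connected_of_center _ _ (.inr T) (Or.inr (Or.inr ⟨T, hT, hi, hj, rfl⟩)) ?_
      rintro x (rfl | rfl | ⟨T', hT', hi', hj', rfl⟩)
      · exact Or.inr ⟨hT, hi⟩
      · exact Or.inr ⟨hT, hj⟩
      · left
        rw [hF.2 T hT T' hT' i j hij hi hj hi' hj']
    · refine connected_of_center _ _ (.inl i) (Or.inl rfl) ?_
      rintro x (rfl | rfl | ⟨T', hT', hi', hj', rfl⟩)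
      · exact Or.inl rfl
      · right
        refine ⟨hij, fun T hT hh => h ⟨T, hT, hh⟩⟩
      · exact absurd ⟨T', hT', hi', hj'⟩ h
  · intro i j k l hij hik hil hjk hjl hkl
    rw [Set.disjoint_left]
    rintro x (rfl | rfl | ⟨T, hT, hi, hj, rfl⟩) (h | h | ⟨T', hT', hk, hl, h⟩)
    · exact hik (Sum.inl_injective h)
    · exact hil (Sum.inl_injective h)
    · exact absurd h (by simp)
    · exact hjk (Sum.inl_injective h)
    · exact hjl (Sum.inl_injective h)
    · exact absurd h (by simp)
    · exact absurd h (by simp)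
    · exact absurd h (by simp)
    · have hTT : T = T' := Sum.inr_injective h
      subst hTT
      have h4 : ({i, j, k, l} : Finset (Fin p)) ⊆ T := by
        intro y hy
        simp only [Finset.mem_insert, Finset.mem_singleton] at hy
        rcases hy with rfl | rfl | rfl | rfl <;> assumption
      have hc : ({i, j, k, l} : Finset (Fin p)).card = 4 := by
        rw [Finset.card_insert_of_notMem, Finset.card_insert_of_notMem,
          Finset.card_insert_of_notMem, Finset.card_singleton]
        · simpa using hkl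
        · simp [hjk, hjl]
        · simp [hij, hik, hil]
      have := Finset.card_le_card h4
      rw [hc, hF.1 T hT] at this
      omega

/-- Key structural lemma: a clique minor with at least five branch sets in the graph of a linear
triple family gives a set `S` of points containing no triple, with `2 t ≤ p + |S|`. -/
lemma levi_minor {p t : ℕ} (ht : 5 ≤ t) (F : Set (Finset (Fin p))) (hF : Linear F)
    (hm : CliqueMinor (levi F) t) :
    ∃ S : Finset (Fin p), (∀ T ∈ F, ¬ T ⊆ S) ∧ 2 * t ≤ p + S.card := by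
  classical
  obtain ⟨B, hconn, hdisj, hadj⟩ := hm
  -- points of the branch set `i`
  let pts : Fin t → Finset (Fin p) := fun i => Finset.univ.filter (fun a => Sum.inl a ∈ B i)
  have mem_pts : ∀ i a, a ∈ pts i ↔ Sum.inl a ∈ B i := fun i a => by simp [pts]
  have pts_disj : ∀ i j, i ≠ j → Disjoint (pts i) (pts j) := by
    intro i j hij
    rw [Finset.disjoint_left]
    intro a ha hb
    exact (Set.disjoint_left.1 (hdisj i j hij)) ((mem_pts i a).1 ha) ((mem_pts j a).1 hb)
  -- every branch set contains a point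
  have hne : ∀ i, (pts i).Nonempty := by
    intro i
    by_contra hemp
    rw [Finset.not_nonempty_iff_eq_empty] at hemp
    have hnl : ∀ a, Sum.inl a ∉ B i := by
      intro a ha
      have := (mem_pts i a).2 ha
      rw [hemp] at this
      exact absurd this (Finset.notMem_empty a)
    obtain ⟨⟨x0, hx0⟩⟩ := (hconn i).nonempty
    rcases x0 with a | T
    · exact hnl a hx0
    have huniq : ∀ x ∈ B i, x = Sum.inr T := by
      intro x hx
      by_contra hne
      obtain ⟨z, hz, hadjz⟩ := exists_nbr_of_connected (levi F) (B i) (hconn i) (Sum.inr T) x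
        hx0 hx (Ne.symm hne)
      rcases z with a | T'
      · exact hnl a hz
      · exact hadjz
    have hex : ∀ j : Fin t, j ≠ i → ∃ a, a ∈ T ∧ Sum.inl a ∈ B j ∧ T ∈ F := by
      intro j hj
      obtain ⟨x, hx, y, hy, hxy⟩ := hadj i j (Ne.symm hj)
      rw [huniq x hx] at hxy
      rcases y with a | T'
      · exact ⟨a, hxy.2, hy, hxy.1⟩
      · exact absurd hxy (by simp)
    have h0 : ∃ j : Fin t, j ≠ i := by
      by_contra hcon
      push Not at hcon
      have hc1 : Fintype.card (Fin t) ≤ 1 := Fintype.card_le_one_iff.2 (fun a b => by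
        rw [hcon a, hcon b])
      rw [Fintype.card_fin] at hc1
      omega
    obtain ⟨j0, hj0⟩ := h0
    obtain ⟨a0, _, _, hTF⟩ := hex j0 hj0
    have : Nonempty (Fin p) := ⟨a0⟩
    choose! f hf using hex
    have hinj : Set.InjOn f (Finset.univ.erase i : Finset (Fin t)) := by
      intro j hj k hk hjk
      by_contra hne
      have h1 := (hf j (Finset.ne_of_mem_erase hj)).2.1
      have h2 := (hf k (Finset.ne_of_mem_erase hk)).2.1
      rw [hjk] at h1
      exact (Set.disjoint_left.1 (hdisj j k hne)) h1 h2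
    have hle : (Finset.univ.erase i : Finset (Fin t)).card ≤ T.card := by
      apply Finset.card_le_card_of_injOn f
      · intro j hj
        exact (hf j (Finset.ne_of_mem_erase hj)).1
      · exact hinj
    rw [Finset.card_erase_of_mem (Finset.mem_univ i), Finset.card_univ, Fintype.card_fin,
      hF.1 T hTF] at hle
    omega
  -- the singletons
  let I : Finset (Fin t) := Finset.univ.filter (fun i => (pts i).card = 1)
  let S : Finset (Fin p) := I.biUnion pts
  have hIcard : S.card = I.card := by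
    rw [Finset.card_biUnion (fun i _ j _ hij => pts_disj i j hij)]
    rw [Finset.sum_congr rfl (fun i hi => (Finset.mem_filter.1 hi).2)]
    rw [Finset.sum_const, smul_eq_mul, mul_one]
  have hsum : ∑ i, (pts i).card ≤ p := by
    have h1 : (Finset.univ.biUnion pts).card = ∑ i, (pts i).card :=
      Finset.card_biUnion (fun i _ j _ hij => pts_disj i j hij)
    rw [← h1]
    calc (Finset.univ.biUnion pts).card ≤ (Finset.univ : Finset (Fin p)).card :=
          Finset.card_le_card (Finset.subset_univ _)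
      _ = p := by simp
  refine ⟨S, ?_, ?_⟩
  · -- no triple inside `S`
    intro T hT hTS
    have hcard := hF.1 T hT
    obtain ⟨a, b, c, hab, hac, hbc, rfl⟩ := Finset.card_eq_three.1 hcard
    have hsel : ∀ x ∈ ({a, b, c} : Finset (Fin p)), ∃ i, pts i = {x} := by
      intro x hx
      obtain ⟨i, hi, hxi⟩ := Finset.mem_biUnion.1 (hTS hx)
      obtain ⟨y, hy⟩ := Finset.card_eq_one.1 (Finset.mem_filter.1 hi).2
      refine ⟨i, ?_⟩
      rw [hy] at hxi ⊢
      rw [Finset.mem_singleton.1 hxi]
    obtain ⟨ia, hia⟩ := hsel a (by simp)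
    obtain ⟨ib, hib⟩ := hsel b (by simp)
    obtain ⟨ic, hic⟩ := hsel c (by simp)
    -- a triple vertex in a branch set with unique point `y` contains `y`
    have key : ∀ (i : Fin t) (y : Fin p) (T' : Finset (Fin p)), pts i = {y} →
        Sum.inr T' ∈ B i → y ∈ T' := by
      intro i y T' hi hT'
      have hy : Sum.inl y ∈ B i := (mem_pts i y).1 (by rw [hi]; simp)
      obtain ⟨z, hz, hadjz⟩ := exists_nbr_of_connected (levi F) (B i) (hconn i) (Sum.inr T')
        (Sum.inl y) hT' hy (by simp)
      rcases z with z | T''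
      · have : z ∈ pts i := (mem_pts i z).2 hz
        rw [hi, Finset.mem_singleton] at this
        rw [← this]
        exact hadjz.2
      · exact absurd hadjz (by simp)
    have main : ∀ (i j : Fin t) (x y : Fin p), pts i = {x} → pts j = {y} → x ≠ y →
        x ∈ ({a, b, c} : Finset (Fin p)) → y ∈ ({a, b, c} : Finset (Fin p)) →
        (Sum.inr {a, b, c} ∈ B i ∨ Sum.inr {a, b, c} ∈ B j) := by
      intro i j x y hi hj hxy hx hy
      have hij : i ≠ j := by
        rintro rfl
        rw [hi] at hj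
        exact hxy (Finset.singleton_injective hj)
      obtain ⟨u, hu, w, hw, huw⟩ := hadj i j hij
      rcases u with u | T1 <;> rcases w with w | T2
      · have h1 : u ∈ pts i := (mem_pts i u).2 hu
        have h2 : w ∈ pts j := (mem_pts j w).2 hw
        rw [hi, Finset.mem_singleton] at h1
        rw [hj, Finset.mem_singleton] at h2
        subst h1 h2
        exact absurd ⟨hx, hy⟩ (huw.2 _ hT)
      · have h1 : u ∈ pts i := (mem_pts i u).2 hu
        rw [hi, Finset.mem_singleton] at h1
        subst h1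
        have h2 : y ∈ T2 := key j y T2 hj hw
        have : ({a, b, c} : Finset (Fin p)) = T2 :=
          hF.2 _ hT T2 huw.1 u y hxy hx hy huw.2 h2
        right
        rw [this]
        exact hw
      · have h1 : w ∈ pts j := (mem_pts j w).2 hw
        rw [hj, Finset.mem_singleton] at h1
        subst h1
        have h2 : x ∈ T1 := key i x T1 hi hu
        have : ({a, b, c} : Finset (Fin p)) = T1 :=
          hF.2 _ hT T1 huw.1 x w hxy hx hy h2 huw.2
        left
        rw [this]
        exact hu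
      · exact absurd huw (by simp)
    have hdiff : ∀ (i j : Fin t) (x y : Fin p), pts i = {x} → pts j = {y} → x ≠ y → i ≠ j := by
      intro i j x y hi hj hxy hij
      subst hij
      rw [hi] at hj
      exact hxy (Finset.singleton_injective hj)
    have hnot : ∀ (i j : Fin t), i ≠ j → Sum.inr {a, b, c} ∈ B i → Sum.inr {a, b, c} ∉ B j :=
      fun i j hij h1 h2 => (Set.disjoint_left.1 (hdisj i j hij)) h1 h2
    have nab := hdiff ia ib a b hia hib hab
    have nac := hdiff ia ic a c hia hic hac
    have nbc := hdiff ib ic b c hib hic hbc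
    rcases main ia ib a b hia hib hab (by simp) (by simp) with h | h
    · rcases main ib ic b c hib hic hbc (by simp) (by simp) with h' | h'
      · exact hnot ia ib nab h h'
      · exact hnot ia ic nac h h'
    · rcases main ia ic a c hia hic hac (by simp) (by simp) with h' | h'
      · exact hnot ia ib nab h' h
      · exact hnot ib ic nbc h h'
  · -- counting
    have h2 : ∀ i, 2 ≤ (pts i).card + (if i ∈ I then 1 else 0) := by
      intro i
      have h1 : 1 ≤ (pts i).card := Finset.card_pos.2 (hne i)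
      by_cases hi : i ∈ I
      · rw [if_pos hi]; omega
      · rw [if_neg hi]
        have : (pts i).card ≠ 1 := fun h => hi (by simp [I, h])
        omega
    have h3 : ∑ _i : Fin t, 2 ≤ ∑ i : Fin t, ((pts i).card + (if i ∈ I then 1 else 0)) :=
      Finset.sum_le_sum (fun i _ => h2 i)
    rw [Finset.sum_add_distrib] at h3
    have h4 : ∑ i : Fin t, (if i ∈ I then 1 else 0) = I.card := by
      simp
    rw [h4] at h3
    simp only [Finset.sum_const, Finset.card_univ, Fintype.card_fin, smul_eq_mul] at h3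
    omega

end Levi

section Cap

/-- The ambient group: vectors of length `n` over the field with three elements. -/
abbrev Vec (n : ℕ) : Type := Fin n → ZMod 3

lemma card_vec (n : ℕ) : Fintype.card (Vec n) = 3 ^ n := by
  simp [Vec, ZMod.card]

/-- label of the point `x` inside its block of `3 ^ n` consecutive points -/
noncomputable def lab (n p : ℕ) (x : Fin p) : Vec n :=
  (Fintype.equivFinOfCardEq (card_vec n)).symm ⟨x.val % 3 ^ n, Nat.mod_lt _ (by positivity)⟩

lemma lab_inj {n p : ℕ} {x y : Fin p} (hq : x.val / 3 ^ n = y.val / 3 ^ n)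
    (h : lab n p x = lab n p y) : x = y := by
  unfold lab at h
  have h1 := (Fintype.equivFinOfCardEq (card_vec n)).symm.injective h
  have h2 : x.val % 3 ^ n = y.val % 3 ^ n := by
    simpa using h1
  apply Fin.ext
  rw [← Nat.div_add_mod x.val (3 ^ n), ← Nat.div_add_mod y.val (3 ^ n), hq, h2]

/-- The lines of the affine spaces carried by the blocks. -/
def lines (n p : ℕ) : Set (Finset (Fin p)) :=
  {T | ∃ a b c : Fin p, a ≠ b ∧ a.val / 3 ^ n = b.val / 3 ^ n ∧ b.val / 3 ^ n = c.val / 3 ^ n ∧
    lab n p a + lab n p b + lab n p c = 0 ∧ T = {a, b, c}}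

lemma three_zero {n : ℕ} (v : Vec n) : v + v + v = 0 := by
  funext i
  have : ∀ z : ZMod 3, z + z + z = 0 := by decide
  exact this (v i)

lemma lines_third {n p : ℕ} {T : Finset (Fin p)} (hT : T ∈ lines n p) {x y : Fin p}
    (hxy : x ≠ y) (hx : x ∈ T) (hy : y ∈ T) :
    ∃ z, z ≠ x ∧ z ≠ y ∧ z.val / 3 ^ n = x.val / 3 ^ n ∧
      lab n p z = -(lab n p x + lab n p y) ∧ T = {x, y, z} := by
  classical
  obtain ⟨a, b, c, hab, hq1, hq2, hsum, rfl⟩ := hT
  have hac : a ≠ c := by
    rintro rfl
    apply hab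
    apply lab_inj hq1
    have h3 := three_zero (lab n p a)
    have : lab n p a + lab n p b + lab n p a = lab n p a + lab n p a + lab n p a := by
      rw [hsum, h3]
    have h4 := add_right_cancel this
    exact (add_left_cancel h4).symm
  have hbc : b ≠ c := by
    rintro rfl
    apply hab
    apply lab_inj hq1
    have h3 := three_zero (lab n p b)
    have : lab n p a + lab n p b + lab n p b = lab n p b + lab n p b + lab n p b := by
      rw [hsum, h3]
    have h4 := add_right_cancel this
    exact add_right_cancel h4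
  have ha : lab n p a = -(lab n p b + lab n p c) := by
    rw [eq_neg_iff_add_eq_zero, ← hsum]; abel
  have hb : lab n p b = -(lab n p a + lab n p c) := by
    rw [eq_neg_iff_add_eq_zero, ← hsum]; abel
  have hc : lab n p c = -(lab n p a + lab n p b) := by
    rw [eq_neg_iff_add_eq_zero, ← hsum]; abel
  simp only [Finset.mem_insert, Finset.mem_singleton] at hx hy
  rcases hx with rfl | rfl | rfl <;> rcases hy with rfl | rfl | rfl
  · exact absurd rfl hxy
  · exact ⟨c, hac.symm, hbc.symm, (hq1.trans hq2).symm, hc, rfl⟩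
  · refine ⟨b, hab.symm, hbc, hq1.symm, hb, ?_⟩
    ext t; simp only [Finset.mem_insert, Finset.mem_singleton]; tauto
  · refine ⟨c, hbc.symm, hac.symm, hq2.symm, ?_, ?_⟩
    · rw [hc]; rw [add_comm]
    · ext t; simp only [Finset.mem_insert, Finset.mem_singleton]; tauto
  · exact absurd rfl hxy
  · refine ⟨a, hab, hac, hq1, ha, ?_⟩
    ext t; simp only [Finset.mem_insert, Finset.mem_singleton]; tauto
  · refine ⟨b, hbc, hab.symm, hq2, ?_, ?_⟩
    · rw [hb]; rw [add_comm]
    · ext t; simp only [Finset.mem_insert, Finset.mem_singleton]; tauto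
  · refine ⟨a, hac, hab, hq1.trans hq2, ?_, ?_⟩
    · rw [ha]; rw [add_comm]
    · ext t; simp only [Finset.mem_insert, Finset.mem_singleton]; tauto
  · exact absurd rfl hxy

lemma lines_linear (n p : ℕ) : Linear (lines n p) := by
  classical
  constructor
  · intro T hT
    obtain ⟨a, b, c, hab, hrest⟩ := hT
    have hT' : T ∈ lines n p := ⟨a, b, c, hab, hrest⟩
    have hTe := hrest.2.2.2
    obtain ⟨z, hza, hzb, _, _, hTz⟩ := lines_third hT' hab (by simp [hTe]) (by simp [hTe])
    rw [hTz]
    rw [Finset.card_eq_three]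
    exact ⟨a, b, z, hab, hza.symm, hzb.symm, rfl⟩
  · intro T hT T' hT' a b hab ha hb ha' hb'
    obtain ⟨z, _, _, hq, hz, hTz⟩ := lines_third hT hab ha hb
    obtain ⟨z', _, _, hq', hz', hTz'⟩ := lines_third hT' hab ha' hb'
    have : z = z' := lab_inj (hq.trans hq'.symm) (hz.trans hz'.symm)
    rw [hTz, hTz', this]

/-- A point set without a line has size at most `δ (p + 3 ^ n)` once `n` is large. -/
lemma small_of_free {n p : ℕ} {δ : ℝ} (hδ : 0 < δ)
    (hn : cornersTheoremBound δ ≤ 3 ^ n) (S : Finset (Fin p))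
    (hS : ∀ T ∈ lines n p, ¬ T ⊆ S) : (S.card : ℝ) ≤ δ * (p + 3 ^ n) := by
  classical
  have hN : 0 < 3 ^ n := by positivity
  let Sq : ℕ → Finset (Fin p) := fun q => S.filter (fun x => x.val / 3 ^ n = q)
  have hpart : ∀ q, ((Sq q).card : ℝ) ≤ δ * 3 ^ n := by
    intro q
    let A : Finset (Vec n) := (Sq q).image (lab n p)
    have hAcard : A.card = (Sq q).card := by
      apply Finset.card_image_of_injOn
      intro x hx y hy hxy
      have hx' := (Finset.mem_filter.1 hx).2
      have hy' := (Finset.mem_filter.1 hy).2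
      exact lab_inj (hx'.trans hy'.symm) hxy
    have hfree : ThreeAPFree (A : Set (Vec n)) := by
      intro a ha b hb c hc habc
      obtain ⟨x, hx, rfl⟩ := Finset.mem_image.1 (Finset.mem_coe.1 ha)
      obtain ⟨y, hy, rfl⟩ := Finset.mem_image.1 (Finset.mem_coe.1 hb)
      obtain ⟨z, hz, rfl⟩ := Finset.mem_image.1 (Finset.mem_coe.1 hc)
      by_contra hne
      have hxy : x ≠ y := fun h => hne (by rw [h])
      have hx' := Finset.mem_filter.1 hx
      have hy' := Finset.mem_filter.1 hy
      have hz' := Finset.mem_filter.1 hz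
      have hT : ({x, y, z} : Finset (Fin p)) ∈ lines n p := by
        refine ⟨x, y, z, hxy, hx'.2.trans hy'.2.symm, hy'.2.trans hz'.2.symm, ?_, rfl⟩
        have h3 := three_zero (lab n p y)
        calc lab n p x + lab n p y + lab n p z
            = (lab n p x + lab n p z) + lab n p y := by abel
          _ = lab n p y + lab n p y + lab n p y := by rw [habc]
          _ = 0 := h3
      apply hS _ hT
      intro t ht
      simp only [Finset.mem_insert, Finset.mem_singleton] at ht
      rcases ht with rfl | rfl | rfl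
      · exact hx'.1
      · exact hy'.1
      · exact hz'.1
    by_contra hlt
    push Not at hlt
    refine roth_3ap_theorem δ hδ (by rw [card_vec]; exact hn) A ?_ hfree
    rw [card_vec, hAcard]
    push_cast
    exact hlt.le
  have hcover : S ⊆ (Finset.range (p / 3 ^ n + 1)).biUnion Sq := by
    intro x hx
    rw [Finset.mem_biUnion]
    refine ⟨x.val / 3 ^ n, ?_, Finset.mem_filter.2 ⟨hx, rfl⟩⟩
    rw [Finset.mem_range]
    have : x.val / 3 ^ n ≤ p / 3 ^ n := Nat.div_le_div_right x.isLt.le
    omega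
  have h1 : S.card ≤ ∑ q ∈ Finset.range (p / 3 ^ n + 1), (Sq q).card :=
    (Finset.card_le_card hcover).trans Finset.card_biUnion_le
  have h2 : (S.card : ℝ) ≤ ∑ q ∈ Finset.range (p / 3 ^ n + 1), ((Sq q).card : ℝ) := by
    exact_mod_cast h1
  have h3 : ∑ q ∈ Finset.range (p / 3 ^ n + 1), ((Sq q).card : ℝ) ≤
      ∑ _q ∈ Finset.range (p / 3 ^ n + 1), δ * 3 ^ n :=
    Finset.sum_le_sum (fun q _ => hpart q)
  rw [Finset.sum_const, Finset.card_range, nsmul_eq_mul] at h3
  have h4 : ((p / 3 ^ n + 1 : ℕ) : ℝ) * (δ * 3 ^ n) ≤ δ * (p + 3 ^ n) := by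
    have h5 : ((p / 3 ^ n : ℕ) : ℝ) * 3 ^ n ≤ p := by
      have := Nat.div_mul_le_self p (3 ^ n)
      exact_mod_cast this
    push_cast
    nlinarith
  linarith

end Cap

/-- If every graph with a `p`-scheme has a `K_t` minor then `t` is at most about `p / 2`. -/
lemma forces_le (ε : ℝ) (hε : 0 < ε) :
    ∃ P : ℕ, ∀ p : ℕ, P ≤ p → ∀ t : ℕ, Forces p t → (t : ℝ) ≤ (1 / 2 + ε) * p := by
  obtain ⟨n, hn⟩ : ∃ n : ℕ, cornersTheoremBound ε ≤ 3 ^ n :=
    ⟨cornersTheoremBound ε, (Nat.lt_pow_self (by norm_num)).le⟩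
  refine ⟨max (3 ^ n) 8, fun p hp t ht => ?_⟩
  have hp1 : 3 ^ n ≤ p := le_trans (le_max_left _ _) hp
  have hp2 : 8 ≤ p := le_trans (le_max_right _ _) hp
  have hp1' : (3 : ℝ) ^ n ≤ p := by exact_mod_cast hp1
  have hp2' : (8 : ℝ) ≤ p := by exact_mod_cast hp2
  by_cases h5 : 5 ≤ t
  · have hm := ht (Fin p ⊕ Finset (Fin p)) (levi (lines n p))
      (levi_hasScheme _ (lines_linear n p))
    obtain ⟨S, hS1, hS2⟩ := levi_minor h5 _ (lines_linear n p) hm
    have h6 := small_of_free hε hn S hS1
    have h7 : (2 : ℝ) * t ≤ p + S.card := by exact_mod_cast hS2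
    nlinarith
  · have : (t : ℝ) ≤ 4 := by
      have : t ≤ 4 := by omega
      exact_mod_cast this
    nlinarith

lemma forces_zero (p : ℕ) : Forces p 0 := by
  intro V _ G _
  exact ⟨fun i => i.elim0, fun i => i.elim0, fun i => i.elim0, fun i => i.elim0⟩

/-- The complete graph on `p` vertices has a `p`-scheme, hence the set defining `g p` is bounded. -/
lemma forces_bdd (p : ℕ) : BddAbove {t | Forces p t} := by
  refine ⟨p, fun t ht => ?_⟩
  have hsch : HasScheme (⊤ : SimpleGraph (Fin p)) p := by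
    refine ⟨id, fun i j => {i, j}, Function.injective_id, ?_, ?_, ?_⟩
    · intro i j _
      exact Set.pair_comm i j
    · intro i j hij
      refine ⟨?_, by simp, by simp⟩
      refine connected_of_center _ _ i (by simp) ?_
      rintro x (rfl | hx)
      · exact Or.inl rfl
      · rw [Set.mem_singleton_iff] at hx
        subst hx
        exact Or.inr (by simpa using hij)
    · intro i j k l hij hik hil hjk hjl hkl
      rw [Set.disjoint_left]
      rintro x (rfl | hx) (h | h)
      · exact hik h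
      · exact hil h
      · rw [Set.mem_singleton_iff] at hx
        subst hx
        exact hjk h
      · rw [Set.mem_singleton_iff] at hx
        subst hx
        exact hjl h
  obtain ⟨B, hconn, hdisj, _⟩ := ht (Fin p) ⊤ hsch
  have hne : ∀ i, ∃ x, x ∈ B i := fun i => by
    obtain ⟨⟨x, hx⟩⟩ := (hconn i).nonempty
    exact ⟨x, hx⟩
  choose f hf using hne
  have hinj : Function.Injective f := by
    intro i j hij
    by_contra hne
    exact (Set.disjoint_left.1 (hdisj i j hne)) (hf i) (hij ▸ hf j)
  have := Fintype.card_le_of_injective f hinj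
  simpa using this


section Lower

open Pool.Agent.Helper411

lemma isGreatest_g (p : ℕ) : IsGreatest {t | Forces p t} (g p) :=
  ⟨Nat.sSup_mem ⟨0, forces_zero p⟩ (forces_bdd p), fun _ ht => le_csSup (forces_bdd p) ht⟩

/-- The union of two adjacent connected sets is connected. -/
lemma connected_union {V : Type} {G : SimpleGraph V} {S T : Set V}
    (hS : (G.induce S).Connected) (hT : (G.induce T).Connected) {x y : V} (hx : x ∈ S)
    (hy : y ∈ T) (hxy : G.Adj x y) : (G.induce (S ∪ T)).Connected := by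
  rw [SimpleGraph.connected_iff_exists_forall_reachable]
  refine ⟨⟨x, Or.inl hx⟩, ?_⟩
  rintro ⟨z, hz | hz⟩
  · exact reach_mono Set.subset_union_left (hS.preconnected ⟨x, hx⟩ ⟨z, hz⟩)
  · have h1 : (G.induce (S ∪ T)).Adj ⟨x, Or.inl hx⟩ ⟨y, Or.inr hy⟩ := hxy
    exact h1.reachable.trans (reach_mono Set.subset_union_right (hT.preconnected ⟨y, hy⟩ ⟨z, hz⟩))

lemma cliqueMinor_of_family {V κ : Type} [Fintype κ] {G : SimpleGraph V} {t : ℕ}
    (ht : Fintype.card κ = t) (B : κ → Set V) (h1 : ∀ i, (G.induce (B i)).Connected)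
    (h2 : ∀ i j, i ≠ j → Disjoint (B i) (B j))
    (h3 : ∀ i j, i ≠ j → ∃ x ∈ B i, ∃ y ∈ B j, G.Adj x y) : CliqueMinor G t := by
  let e : Fin t ≃ κ := (Fintype.equivFinOfCardEq ht).symm
  exact ⟨fun i => B (e i), fun i => h1 _, fun i j hij => h2 _ _ (fun h => hij (e.injective h)),
    fun i j hij => h3 _ _ (fun h => hij (e.injective h))⟩

/-- A complete bipartite minor `K_{r+1,n}` with `n > r` gives a `K_{r+2}` minor. -/
lemma cliqueMinor_of_model {V : Type} {G : SimpleGraph V} {r n : ℕ} (hn : r < n)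
    {u : Fin (r + 1) → V} {w : Fin n → V} (h : Model G u w) : CliqueMinor G (r + 2) := by
  obtain ⟨U, h1, h2, _, _, h5⟩ := h
  have h5' : ∀ i j, ∃ x ∈ U (.inr j), ∃ y ∈ U (.inl i), G.Adj x y := by
    intro i j
    obtain ⟨x, hx, y, hy, hxy⟩ := h5 i j
    exact ⟨y, hy, x, hx, hxy.symm⟩
  let a : Fin r → Fin (r + 1) := Fin.castSucc
  let b : Fin r → Fin n := fun k => ⟨k.1, by omega⟩
  let b' : Fin n := ⟨r, hn⟩
  have ha : ∀ k l, k ≠ l → (Sum.inl (a k) : Fin (r + 1) ⊕ Fin n) ≠ Sum.inl (a l) := by
    intro k l hkl h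
    exact hkl (Fin.castSucc_injective _ (Sum.inl_injective h))
  have ha' : ∀ k, (Sum.inl (a k) : Fin (r + 1) ⊕ Fin n) ≠ Sum.inl (Fin.last r) := by
    intro k h
    exact (Fin.castSucc_lt_last k).ne (Sum.inl_injective h)
  have hb : ∀ k l, k ≠ l → (Sum.inr (b k) : Fin (r + 1) ⊕ Fin n) ≠ Sum.inr (b l) := by
    intro k l hkl h
    have := congrArg Fin.val (Sum.inr_injective h)
    exact hkl (Fin.ext this)
  have hb' : ∀ k, (Sum.inr (b k) : Fin (r + 1) ⊕ Fin n) ≠ Sum.inr b' := by
    intro k h
    have := congrArg Fin.val (Sum.inr_injective h)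
    have hk : k.1 = r := this
    have := k.2
    omega
  let B : Fin r ⊕ Bool → Set V := fun k => match k with
    | .inl k => U (.inl (a k)) ∪ U (.inr (b k))
    | .inr false => U (.inl (Fin.last r))
    | .inr true => U (.inr b')
  apply cliqueMinor_of_family (κ := Fin r ⊕ Bool) (by simp) B
  · rintro (k | _ | _)
    · obtain ⟨x, hx, y, hy, hxy⟩ := h5 (a k) (b k)
      exact connected_union (h1 _) (h1 _) hx hy hxy
    · exact h1 _
    · exact h1 _
  · rintro (k | _ | _) (l | _ | _) hkl
    · have hkl' : k ≠ l := fun h => hkl (by rw [h])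
      change Disjoint (U (.inl (a k)) ∪ U (.inr (b k))) (U (.inl (a l)) ∪ U (.inr (b l)))
      rw [Set.disjoint_union_left, Set.disjoint_union_right, Set.disjoint_union_right]
      exact ⟨⟨h2 _ _ (ha k l hkl'), h2 _ _ (by simp)⟩, ⟨h2 _ _ (by simp), h2 _ _ (hb k l hkl')⟩⟩
    · change Disjoint (U (.inl (a k)) ∪ U (.inr (b k))) (U (.inl (Fin.last r)))
      rw [Set.disjoint_union_left]
      exact ⟨h2 _ _ (ha' k), h2 _ _ (by simp)⟩
    · change Disjoint (U (.inl (a k)) ∪ U (.inr (b k))) (U (.inr b'))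
      rw [Set.disjoint_union_left]
      exact ⟨h2 _ _ (by simp), h2 _ _ (hb' k)⟩
    · change Disjoint (U (.inl (Fin.last r))) (U (.inl (a l)) ∪ U (.inr (b l)))
      rw [Set.disjoint_union_right]
      exact ⟨h2 _ _ (ha' l).symm, h2 _ _ (by simp)⟩
    · exact absurd rfl hkl
    · exact h2 _ _ (by simp)
    · change Disjoint (U (.inr b')) (U (.inl (a l)) ∪ U (.inr (b l)))
      rw [Set.disjoint_union_right]
      exact ⟨h2 _ _ (by simp), h2 _ _ (hb' l).symm⟩
    · exact h2 _ _ (by simp)
    · exact absurd rfl hkl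
  · rintro (k | _ | _) (l | _ | _) hkl
    · obtain ⟨x, hx, y, hy, hxy⟩ := h5 (a k) (b l)
      exact ⟨x, Or.inl hx, y, Or.inr hy, hxy⟩
    · obtain ⟨x, hx, y, hy, hxy⟩ := h5' (Fin.last r) (b k)
      exact ⟨x, Or.inr hx, y, hy, hxy⟩
    · obtain ⟨x, hx, y, hy, hxy⟩ := h5 (a k) b'
      exact ⟨x, Or.inl hx, y, hy, hxy⟩
    · obtain ⟨x, hx, y, hy, hxy⟩ := h5 (Fin.last r) (b l)
      exact ⟨x, hx, y, Or.inr hy, hxy⟩
    · exact absurd rfl hkl
    · exact h5 _ _
    · obtain ⟨x, hx, y, hy, hxy⟩ := h5' (a l) b'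
      exact ⟨x, hx, y, Or.inl hy, hxy⟩
    · exact h5' _ _
    · exact absurd rfl hkl

/-- A `p`-scheme yields a complete bipartite minor for every splitting of the indices. -/
lemma model_of_scheme {V : Type} [Finite V] {G : SimpleGraph V} {p m n : ℕ} (hp : m + n = p)
    (hm : 2 ≤ m) (hn : 2 ≤ n) (h : HasScheme G p) :
    ∃ (u : Fin m → V) (w : Fin n → V), Model G u w := by
  classical
  subst hp
  obtain ⟨v, C, _, hsymm, hC, hdisj⟩ := h
  let L : Fin m → Fin (m + n) := Fin.castAdd n
  let R : Fin n → Fin (m + n) := Fin.natAdd m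
  have hLR : ∀ i j, L i ≠ R j := by
    intro i j h
    have := congrArg Fin.val h
    simp only [L, R, Fin.val_castAdd, Fin.val_natAdd] at this
    have := i.2
    omega
  have hLinj : ∀ i k, i ≠ k → L i ≠ L k := by
    intro i k hik h
    apply hik
    have := congrArg Fin.val h
    simp only [L, Fin.val_castAdd] at this
    exact Fin.ext this
  have hRinj : ∀ i k, i ≠ k → R i ≠ R k := by
    intro i k hik h
    apply hik
    have := congrArg Fin.val h
    simp only [R, Fin.val_natAdd] at this
    exact Fin.ext (by omega)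
  have hpair : ∀ x i j k l, x ∈ C (L i) (R j) → x ∈ C (L k) (R l) → i = k ∨ j = l := by
    intro x i j k l h1 h2
    by_contra hcon
    push Not at hcon
    exact (Set.disjoint_left.1 (hdisj (L i) (R j) (L k) (R l) (hLR i j) (hLinj i k hcon.1)
      (hLR i l) (hLR k j).symm (hRinj j l hcon.2) (hLR k l))) h1 h2
  have hm0 : 0 < m := by omega
  have hlab : ∀ x, ∃ c : Fin m ⊕ Fin n, ∀ i j, x ∈ C (L i) (R j) → c = .inl i ∨ c = .inr j := by
    intro x
    by_cases h1 : ∃ i0, ∀ i j, x ∈ C (L i) (R j) → i = i0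
    · obtain ⟨i0, hi0⟩ := h1
      exact ⟨.inl i0, fun i j hij => Or.inl (by rw [hi0 i j hij])⟩
    · push Not at h1
      obtain ⟨i0, j0, hx0, _⟩ := h1 ⟨0, hm0⟩
      obtain ⟨k, l, hxk, hk⟩ := h1 i0
      have hl : l = j0 := by
        rcases hpair x k l i0 j0 hxk hx0 with h | h
        · exact absurd h hk
        · exact h
      subst hl
      refine ⟨.inr l, fun i j hij => Or.inr ?_⟩
      by_contra hne
      have hjl : j ≠ l := fun h => hne (by rw [h])
      rcases hpair x i j i0 l hij hx0 with h | h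
      · rcases hpair x i j k l hij hxk with h' | h'
        · exact hk (h'.symm.trans h)
        · exact hjl h'
      · exact hjl h
  choose ℓ hℓ using hlab
  have : Fintype V := Fintype.ofFinite V
  have : Nonempty (Fin m) := ⟨⟨0, hm0⟩⟩
  have : Nonempty (Fin n) := ⟨⟨0, by omega⟩⟩
  refine ⟨fun i => v (L i), fun j => v (R j), ?_⟩
  apply scheme_main G ℓ
  · intro i
    have e0 := hℓ (v (L i)) i ⟨0, by omega⟩ (hC _ _ (hLR _ _)).2.1
    have e1 := hℓ (v (L i)) i ⟨1, by omega⟩ (hC _ _ (hLR _ _)).2.1
    rcases e0 with e0 | e0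
    · exact e0
    · rcases e1 with e1 | e1
      · exact e1
      · rw [e0] at e1
        simp at e1
  · intro j
    have e0 := hℓ (v (R j)) ⟨0, by omega⟩ j (hC _ _ (hLR _ _)).2.2
    have e1 := hℓ (v (R j)) ⟨1, by omega⟩ j (hC _ _ (hLR _ _)).2.2
    rcases e0 with e0 | e0
    · rcases e1 with e1 | e1
      · rw [e0] at e1
        simp at e1
      · exact e1
    · exact e0
  · intro i j
    obtain ⟨hcon, hvi, hvj⟩ := hC (L i) (R j) (hLR i j)
    let f : G.induce (C (L i) (R j)) →g cell G ℓ i j :=
      { toFun := fun x => x.1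
        map_rel' := by
          intro x y hxy
          exact ⟨hxy, hℓ _ _ _ x.2, hℓ _ _ _ y.2⟩ }
    exact (hcon.preconnected ⟨v (L i), hvi⟩ ⟨v (R j), hvj⟩).map f

/-- Every graph with a `p`-scheme has a `K_{⌊p/2⌋+1}` minor. -/
lemma forces_half {p : ℕ} (hp : 2 ≤ p) : Forces p (p / 2 + 1) := by
  intro V _ G h
  by_cases h4 : 4 ≤ p
  · obtain ⟨r, hr⟩ : ∃ r, p / 2 = r + 1 := ⟨p / 2 - 1, by omega⟩
    obtain ⟨u, w, hmodel⟩ := model_of_scheme (m := r + 1) (n := p - (r + 1)) (by omega)
      (by omega) (by omega) h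
    rw [hr]
    exact cliqueMinor_of_model (by omega) hmodel
  · have h2 : p / 2 + 1 = 2 := by omega
    rw [h2]
    obtain ⟨v, C, hv, _, hC, _⟩ := h
    have hne : (⟨0, by omega⟩ : Fin p) ≠ ⟨1, by omega⟩ := by
      intro h
      simp at h
    obtain ⟨hcon, h0, h1⟩ := hC ⟨0, by omega⟩ ⟨1, by omega⟩ hne
    obtain ⟨z, _, hz⟩ := exists_nbr_of_connected G _ hcon _ _ h0 h1 (fun h => hne (hv h))
    have hsing : ∀ x : V, (G.induce {x}).Connected := fun x =>
      connected_of_center G {x} x rfl (fun y hy => Or.inl hy)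
    apply cliqueMinor_of_family (κ := Bool) (by simp)
      (fun b => if b then {v ⟨0, by omega⟩} else {z})
    · intro b
      cases b
      · exact hsing _
      · exact hsing _
    · intro b c hbc
      cases b <;> cases c
      · exact absurd rfl hbc
      · simpa using hz.ne'
      · simpa using hz.ne
      · exact absurd rfl hbc
    · intro b c hbc
      cases b <;> cases c
      · exact absurd rfl hbc
      · exact ⟨z, by simp, v ⟨0, by omega⟩, by simp, hz.symm⟩
      · exact ⟨v ⟨0, by omega⟩, by simp, z, by simp, hz⟩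
      · exact absurd rfl hbc

end Lower

/-- **Main result.** `g p` is a genuine maximum, `g p ≥ ⌊p/2⌋ + 1` for every `p ≥ 2`, and
`g p / p → 1/2`. -/
theorem result :
    (∀ p : ℕ, IsGreatest {t | Forces p t} (g p)) ∧
    (∀ p : ℕ, 2 ≤ p → p / 2 + 1 ≤ g p) ∧
    Filter.Tendsto (fun p : ℕ => (g p : ℝ) / p) Filter.atTop (nhds (1 / 2)) := by
  refine ⟨isGreatest_g, fun p hp => (isGreatest_g p).2 (forces_half hp), ?_⟩
  rw [Metric.tendsto_atTop]
  intro ε hε
  obtain ⟨P, hP⟩ := forces_le (ε / 2) (by positivity)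
  refine ⟨max P 2, fun p hp => ?_⟩
  have hp1 : P ≤ p := le_trans (le_max_left _ _) hp
  have hp2 : 2 ≤ p := le_trans (le_max_right _ _) hp
  have hp3 : (0 : ℝ) < p := by
    have : 0 < p := by omega
    exact_mod_cast this
  have hup := hP p hp1 (g p) (isGreatest_g p).1
  have hlow : (p : ℝ) ≤ 2 * (g p : ℝ) := by
    have h1 := (isGreatest_g p).2 (forces_half hp2)
    have h2 : p ≤ 2 * g p := by omega
    exact_mod_cast h2
  rw [Real.dist_eq, abs_lt]
  constructor
  · have : (1 : ℝ) / 2 ≤ (g p : ℝ) / p := by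
      rw [le_div_iff₀ hp3]
      linarith
    linarith
  · have : (g p : ℝ) / p ≤ 1 / 2 + ε / 2 := by
      rw [div_le_iff₀ hp3]
      exact hup
    linarith

end Pool.Agent.Results.MP_8d161b_co.Asymptotic
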